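import Pool.Agent.W5h13.SK.Final
import Pool.Agent.W5h13.SK.Conv

set_option autoImplicit false

/-!
# Strong Kurepa trees at successors of singular cardinals

`K` is a well-order of the order type `κ = λ⁺`, `λ` any infinite cardinal, regular or singular; its
elements play the role of the ordinals below `κ`.  In `Pool.Agent.W5h13.SK`:

* `Level T α` : the nodes of `T` whose set of predecessors is isomorphic to `{β | β < α}`;
* `IsTree K T` : `T` is a `κ`-tree;
* `IsBranch K b` : `b` is a cofinal branch; `Branches K T` is `[T]`;
* `branchTop`, `coneTop` : the cone topologies of `[T]` and of `²κ`;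
* `IsStrongKurepa K T` : `T` is a `κ`-tree with at least `κ⁺` cofinal branches such that `[T]` has a
  continuous map onto `²κ`;
* `IsAronszajn K T` : `T` is a `κ`-tree without cofinal branches;
* `DiamondPlus K` : Jensen's `◇⁺(κ)`.
-/

namespace Pool.Agent.Results.MP_f7d510_lc.ConsistentAtSingulars

open Cardinal Pool.Agent.W5h13.SK

universe u

/-- **Strong Kurepa trees from `◇⁺`.** Let `λ` be an infinite cardinal, for instance a singular one,
and `κ = λ⁺`.  If `◇⁺(κ)` holds then there is a strong `κ`-Kurepa tree if and only if there is a
`κ`-Aronszajn tree.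

In the constructible universe `◇⁺(λ⁺)` holds and there is a `λ⁺`-Aronszajn tree for every infinite
`λ` (Jensen), so that there are strong `λ⁺`-Kurepa trees for all singular `λ`. -/
theorem result (lam : Cardinal.{u}) (hlam : ℵ₀ ≤ lam) (K : Type u) [LinearOrder K]
    [WellFoundedLT K] (hK : (Order.succ lam).ord = Ordinal.type (α := K) (· < ·))
    (hdia : DiamondPlus K) :
    (∃ (T : Type u) (_ : PartialOrder T), IsStrongKurepa K T) ↔
      ∃ (A : Type u) (_ : PartialOrder A), IsAronszajn K A := by
  constructor
  · rintro ⟨T, _, hT⟩
    obtain ⟨S, -, hS⟩ := converse (T := T) lam hK hT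
    exact ⟨S, inferInstance, hS⟩
  · rintro ⟨A, _, hA⟩
    exact main lam hlam K hK hdia A hA

end Pool.Agent.Results.MP_f7d510_lc.ConsistentAtSingulars
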